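import Mathlib

/-!
# Integral functionals on a graded domain and compact surfaces (MP_db3ab1_ag, part E)

`R` is a noetherian domain, `D` an `R`-algebra, `φ : D → R` an `R`-linear map, `ann φ` the ideal of
the `f ∈ D` with `φ (f y) = 0` for all `y`.  If `D / ann φ` has finite rank over `R` then it is a
finite `R`-module (`finite_quot_ann`).
-/

set_option autoImplicit false

namespace Pool.Agent.DXA

variable {R D : Type*} [CommRing R] [CommRing D] [Algebra R D]

/-- The annihilator in `D` of an `R`-linear map `D → R`. -/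
def ann (φ : D →ₗ[R] R) : Ideal D where
  carrier := {f | ∀ y, φ (f * y) = 0}
  add_mem' := by
    intro a b ha hb y
    rw [add_mul, map_add, ha, hb, add_zero]
  zero_mem' := by
    intro y
    rw [zero_mul, map_zero]
  smul_mem' := by
    intro c x hx y
    show φ (c * x * y) = 0
    rw [mul_comm c x, mul_assoc]
    exact hx _

theorem mem_ann (φ : D →ₗ[R] R) (f : D) : f ∈ ann φ ↔ ∀ y, φ (f * y) = 0 := Iff.rfl

/-- `f • φ`, that is `y ↦ φ (f y)`. -/
def act (f : D) (φ : D →ₗ[R] R) : D →ₗ[R] R := φ.comp (LinearMap.mulLeft R f)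

@[simp] theorem act_apply (f : D) (φ : D →ₗ[R] R) (y : D) : act f φ y = φ (f * y) := rfl

theorem act_eq_zero (f : D) (φ : D →ₗ[R] R) : act f φ = 0 ↔ f ∈ ann φ := by
  rw [mem_ann]
  constructor
  · intro h y
    rw [← act_apply, h, LinearMap.zero_apply]
  · intro h
    ext y
    exact h y

theorem ann_act (f g : D) (φ : D →ₗ[R] R) : g ∈ ann (act f φ) ↔ f * g ∈ ann φ := by
  rw [mem_ann, mem_ann]
  simp only [act_apply, mul_assoc]

theorem ann_le_ann_act (f : D) (φ : D →ₗ[R] R) : ann φ ≤ ann (act f φ) := by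
  intro g hg
  rw [ann_act]
  exact Ideal.mul_mem_left _ f hg

theorem ann_eq_top (φ : D →ₗ[R] R) : ann φ = ⊤ ↔ φ = 0 := by
  rw [Ideal.eq_top_iff_one, mem_ann]
  constructor
  · intro h
    ext y
    simpa using h y
  · rintro rfl y
    rfl

/-- elements of `ann φ` are killed by `φ` -/
theorem apply_of_mem (φ : D →ₗ[R] R) {f : D} (hf : f ∈ ann φ) : φ f = 0 := by
  have := (mem_ann φ f).1 hf 1
  rwa [mul_one] at this

theorem apply_mul_of_mem (φ : D →ₗ[R] R) {f : D} (hf : f ∈ ann φ) (g : D) : φ (g * f) = 0 := by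
  rw [mul_comm]
  exact (mem_ann φ f).1 hf g

/-- `D / ann φ` is torsion free over `R`. -/
theorem mem_ann_of_smul [IsDomain R] (φ : D →ₗ[R] R) {a : R} (ha : a ≠ 0) {f : D}
    (h : a • f ∈ ann φ) : f ∈ ann φ := by
  rw [mem_ann] at h ⊢
  intro y
  have h1 := h y
  rw [smul_mul_assoc, map_smul, smul_eq_mul] at h1
  exact (mul_eq_zero.1 h1).resolve_left ha

/-- `R → D / ann φ` is injective if `φ ≠ 0`. -/
theorem algebraMap_mem_ann [IsDomain R] (φ : D →ₗ[R] R) (hφ : φ ≠ 0) (a : R)
    (h : algebraMap R D a ∈ ann φ) : a = 0 := by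
  by_contra ha
  apply hφ
  rw [← ann_eq_top, Ideal.eq_top_iff_one]
  apply mem_ann_of_smul φ ha
  rwa [Algebra.smul_def, mul_one]

/-- **Finiteness.** If there are finitely many elements `w i` of `D` such that every `y ∈ D` has a
nonzero multiple in `∑ R w i + ann φ`, then `D / ann φ` is a finite `R`-module. -/
theorem finite_quot_ann [IsDomain R] [IsNoetherianRing R] (φ : D →ₗ[R] R) {r : ℕ} (w : Fin r → D)
    (hw : ∀ y : D, ∃ a : R, a ≠ 0 ∧ ∃ c : Fin r → R, a • y - ∑ i, c i • w i ∈ ann φ) :
    Module.Finite R (D ⧸ ann φ) := by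
  let ψ : D →ₗ[R] (Fin r → R) := LinearMap.pi fun i => act (w i) φ
  have hker : LinearMap.ker ψ = (ann φ).restrictScalars R := by
    ext f
    rw [LinearMap.mem_ker, Submodule.restrictScalars_mem]
    constructor
    · intro h
      rw [mem_ann]
      intro y
      obtain ⟨a, ha, c, hc⟩ := hw y
      have h1 : ∀ i, φ (f * w i) = 0 := by
        intro i
        have := congrFun h i
        rw [mul_comm]
        exact this
      have h2 : φ (f * (a • y - ∑ i, c i • w i)) = 0 := apply_mul_of_mem φ hc f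
      rw [mul_sub, mul_smul_comm, Finset.mul_sum, map_sub, map_smul, map_sum] at h2
      have h3 : ∑ i, φ (f * c i • w i) = 0 := by
        apply Finset.sum_eq_zero
        intro i _
        rw [mul_smul_comm, map_smul, h1, smul_zero]
      rw [h3, sub_zero, smul_eq_mul] at h2
      exact (mul_eq_zero.1 h2).resolve_left ha
    · intro h
      ext i
      show φ (w i * f) = 0
      exact apply_mul_of_mem φ h (w i)
  have e1 : (D ⧸ (ann φ).restrictScalars R) ≃ₗ[R] LinearMap.range ψ :=
    (Submodule.quotEquivOfEq _ _ hker.symm).trans ψ.quotKerEquivRange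
  have hfin : Module.Finite R (D ⧸ (ann φ).restrictScalars R) :=
    Module.Finite.equiv e1.symm
  exact hfin

end Pool.Agent.DXA
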