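import Pool.Agent.DXA.Rank
import Pool.Agent.DXA.Fin

/-!
# Functionals over a complete discrete valuation ring (MP_db3ab1_ag, part E)

If the functionals of degree `s` modulo `ϖ` form a space of dimension at most `a`, then any `a + 1`
functionals of degree `s` are linearly dependent over `V` (`V` complete).
-/

set_option autoImplicit false

open MvPolynomial IsLocalRing

namespace Pool.Agent.DXA

section general

variable {V M : Type*} [CommRing V] [IsDomain V] [IsDiscreteValuationRing V]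
  [IsAdicComplete (maximalIdeal V) V] [AddCommGroup M] [Module V M]

theorem mem_pow_iff {ϖ : V} (hϖ : Irreducible ϖ) (n : ℕ) (x : V) :
    x ∈ (maximalIdeal V ^ n • ⊤ : Submodule V V) ↔ ϖ ^ n ∣ x := by
  have h1 : maximalIdeal V = Ideal.span {ϖ} := hϖ.maximalIdeal_eq
  rw [h1, Ideal.span_singleton_pow, smul_eq_mul, Ideal.mul_top, Ideal.mem_span_singleton]

/-- elements which are infinitely divisible are zero -/
theorem eq_zero_of_dvd {ϖ : V} (hϖ : Irreducible ϖ) (x : V) (h : ∀ n : ℕ, ϖ ^ n ∣ x) : x = 0 := by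
  apply IsHausdorff.haus (I := maximalIdeal V) inferInstance
  intro n
  rw [SModEq.zero, mem_pow_iff hϖ]
  exact h n

/-- limits of series -/
theorem exists_limit {ϖ : V} (hϖ : Irreducible ϖ) (c : ℕ → V) :
    ∃ L : V, ∀ n : ℕ, ϖ ^ n ∣ (∑ j ∈ Finset.range n, ϖ ^ j * c j) - L := by
  obtain ⟨L, hL⟩ := IsPrecomplete.prec (I := maximalIdeal V) (M := V) inferInstance
    (f := fun n => ∑ j ∈ Finset.range n, ϖ ^ j * c j) (by
      intro m n hmn
      rw [SModEq.sub_mem, mem_pow_iff hϖ]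
      have h1 : ∑ j ∈ Finset.range n, ϖ ^ j * c j = ∑ j ∈ Finset.range m, ϖ ^ j * c j +
          ∑ j ∈ Finset.Ico m n, ϖ ^ j * c j := (Finset.sum_range_add_sum_Ico _ hmn).symm
      show ϖ ^ m ∣ ∑ j ∈ Finset.range m, ϖ ^ j * c j - ∑ j ∈ Finset.range n, ϖ ^ j * c j
      rw [h1, sub_add_cancel_left]
      apply Dvd.dvd.neg_right
      apply Finset.dvd_sum
      intro j hj
      exact Dvd.dvd.mul_right (pow_dvd_pow _ (Finset.mem_Ico.1 hj).1) _)
  refine ⟨L, fun n => ?_⟩
  have := hL n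
  rw [SModEq.sub_mem, mem_pow_iff hϖ] at this
  exact this

/-- **Dependence over a complete discrete valuation ring.** -/
theorem exists_dep {ϖ : V} (hϖ : Irreducible ϖ)
    (hsep : ∀ x : M, (∀ n : ℕ, ∃ y, x = ϖ ^ n • y) → x = 0) (a : ℕ)
    (ha : ∀ x : Fin (a + 1) → M, ∃ c : Fin (a + 1) → V, (∃ i, IsUnit (c i)) ∧
      ∃ y, ∑ i, c i • x i = ϖ • y)
    (x : Fin (a + 1) → M) : ∃ c : Fin (a + 1) → V, c ≠ 0 ∧ ∑ i, c i • x i = 0 := by
  classical
  let P : ℕ → Prop := fun b => ∃ e : Fin b → M, ∀ c : Fin b → V,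
    (∃ y, ∑ i, c i • e i = ϖ • y) → ∀ i, ϖ ∣ c i
  have h0 : P 0 := ⟨fun i => i.elim0, fun c _ i => i.elim0⟩
  have hnot : ¬ P (a + 1) := by
    rintro ⟨e, he⟩
    obtain ⟨c, ⟨i, hi⟩, hy⟩ := ha e
    exact hϖ.not_isUnit (isUnit_of_dvd_unit (he c hy i) hi)
  obtain ⟨b, hba, ⟨e, he⟩, hmax⟩ : ∃ b, b ≤ a ∧ P b ∧ ¬ P (b + 1) := by
    refine ⟨Nat.findGreatest P a, Nat.findGreatest_le _, Nat.findGreatest_spec (Nat.zero_le _) h0,
      ?_⟩
    intro hP
    rcases Nat.lt_or_ge (Nat.findGreatest P a) a with h | h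
    · have := Nat.le_findGreatest (P := P) h hP
      omega
    · have h2 : Nat.findGreatest P a = a := le_antisymm (Nat.findGreatest_le _) h
      rw [h2] at hP
      exact hnot hP
  -- one step
  have hstep : ∀ y : M, ∃ (c : Fin b → V) (z : M), y = ∑ i, c i • e i + ϖ • z := by
    intro y
    by_contra hcon
    apply hmax
    refine ⟨Fin.snoc e y, fun c hc => ?_⟩
    obtain ⟨z, hz⟩ := hc
    rw [Fin.sum_univ_castSucc] at hz
    simp only [Fin.snoc_castSucc, Fin.snoc_last] at hz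
    have hlast : ϖ ∣ c (Fin.last b) := by
      by_contra hnd
      have hu : IsUnit (c (Fin.last b)) := by
        by_contra hnu
        apply hnd
        have : c (Fin.last b) ∈ maximalIdeal V := (mem_maximalIdeal _).2 hnu
        rwa [hϖ.maximalIdeal_eq, Ideal.mem_span_singleton] at this
      obtain ⟨u, hu⟩ := hu
      apply hcon
      refine ⟨fun i => -((↑u⁻¹ : V) * c i.castSucc), (↑u⁻¹ : V) • z, ?_⟩
      have h1 : c (Fin.last b) • y = ϖ • z - ∑ i, c (Fin.castSucc i) • e i := by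
        rw [← hz]
        abel
      have h2 : y = (↑u⁻¹ : V) • (c (Fin.last b) • y) := by
        rw [← hu, smul_smul, Units.inv_mul, one_smul]
      rw [h2, h1, smul_sub, Finset.smul_sum, smul_comm ϖ]
      simp only [neg_smul, Finset.sum_neg_distrib, mul_smul]
      abel
    intro i
    refine Fin.lastCases hlast (fun j => ?_) i
    obtain ⟨q, hq⟩ := hlast
    refine he (fun j => c j.castSucc) ⟨z - q • y, ?_⟩ j
    rw [smul_sub, smul_smul, ← hq, ← hz]
    abel
  -- the module is spanned by `e`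
  have hspan : ∀ y : M, ∃ c : Fin b → V, y = ∑ i, c i • e i := by
    intro y
    choose C Z hCZ using hstep
    let zs : ℕ → M := fun n => Nat.rec y (fun _ z => Z z) n
    have hzs : ∀ n, zs n = ∑ i, C (zs n) i • e i + ϖ • zs (n + 1) := fun n => hCZ (zs n)
    have hn : ∀ n, y = ∑ i, (∑ j ∈ Finset.range n, ϖ ^ j * C (zs j) i) • e i + ϖ ^ n • zs n := by
      intro n
      induction n with
      | zero => simp [zs]
      | succ n ih =>
        have h1 : ϖ ^ n • zs n = ∑ i, (ϖ ^ n * C (zs n) i) • e i + ϖ ^ (n + 1) • zs (n + 1) := by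
          conv_lhs => rw [hzs n]
          rw [smul_add, Finset.smul_sum, smul_smul, ← pow_succ]
          simp only [smul_smul]
        rw [h1] at ih
        simp only [Finset.sum_range_succ, add_smul, Finset.sum_add_distrib]
        rw [add_assoc]
        exact ih
    choose L hL using fun i => exists_limit hϖ fun j => C (zs j) i
    refine ⟨L, ?_⟩
    rw [← sub_eq_zero]
    apply hsep
    intro n
    choose q hq using fun i => hL i n
    refine ⟨∑ i, q i • e i + zs n, ?_⟩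
    have h2 : y - ∑ i, L i • e i = ∑ i, ((∑ j ∈ Finset.range n, ϖ ^ j * C (zs j) i) - L i) • e i +
        ϖ ^ n • zs n := by
      simp only [sub_smul, Finset.sum_sub_distrib]
      conv_lhs => rw [hn n]
      abel
    rw [h2, smul_add, Finset.smul_sum]
    congr 1
    refine Finset.sum_congr rfl fun i _ => ?_
    rw [hq i, mul_smul]
  choose A hA using hspan
  -- linear algebra
  let f : (Fin (a + 1) → V) →ₗ[V] (Fin b → V) :=
    { toFun := fun c i => ∑ j, c j * A (x j) i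
      map_add' := by
        intro c c'
        funext i
        simp only [Pi.add_apply, add_mul, Finset.sum_add_distrib]
      map_smul' := by
        intro r c
        funext i
        simp only [Pi.smul_apply, smul_eq_mul, RingHom.id_apply, Finset.mul_sum, mul_assoc] }
  have hninj : ¬ Function.Injective f := by
    intro hf
    have h5 := card_le_of_injective V f hf
    simp only [Fintype.card_fin] at h5
    omega
  have : ∃ c : Fin (a + 1) → V, c ≠ 0 ∧ f c = 0 := by
    by_contra hcon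
    apply hninj
    rw [← LinearMap.ker_eq_bot, LinearMap.ker_eq_bot']
    intro c hc
    by_contra hne
    exact hcon ⟨c, hne, hc⟩
  obtain ⟨c, hc0, hc⟩ := this
  refine ⟨c, hc0, ?_⟩
  have h3 : ∑ j, c j • x j = ∑ i, (∑ j, c j * A (x j) i) • e i := by
    calc ∑ j, c j • x j = ∑ j, c j • ∑ i, A (x j) i • e i :=
          Finset.sum_congr rfl fun j _ => by rw [← hA (x j)]
      _ = ∑ j, ∑ i, (c j * A (x j) i) • e i := by
          refine Finset.sum_congr rfl fun j _ => ?_
          rw [Finset.smul_sum]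
          simp only [smul_smul]
      _ = ∑ i, (∑ j, c j * A (x j) i) • e i := by
          rw [Finset.sum_comm]
          simp only [Finset.sum_smul]
  rw [h3]
  apply Finset.sum_eq_zero
  intro i _
  have h4 : ∑ j, c j * A (x j) i = 0 := congrFun hc i
  rw [h4, zero_smul]

end general

section functionals

variable {n : ℕ} {V D : Type*} [CommRing V] [CommRing D] [Algebra V D]
  [Algebra (MvPolynomial (Fin (n + 1)) V) D] [IsScalarTower V (MvPolynomial (Fin (n + 1)) V) D]
  (𝒟 : ℕ → Submodule V D)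

/-- The functionals of degree `s`: `φ` maps elements of degree `m` to forms of degree `m + s`. -/
def Om (s : ℤ) : Submodule V (D →ₗ[MvPolynomial (Fin (n + 1)) V] MvPolynomial (Fin (n + 1)) V) where
  carrier := {φ | ∀ m, ∀ y ∈ 𝒟 m, ∀ d : Fin (n + 1) →₀ ℕ, coeff d (φ y) ≠ 0 →
    ((∑ i, d i : ℕ) : ℤ) = m + s}
  add_mem' := by
    intro φ ψ hφ hψ m y hy d hd
    rw [LinearMap.add_apply, coeff_add] at hd
    by_cases h : coeff d (φ y) = 0
    · apply hψ m y hy d
      intro h'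
      rw [h, h', add_zero] at hd
      exact hd rfl
    · exact hφ m y hy d h
  zero_mem' := by
    intro m y hy d hd
    rw [LinearMap.zero_apply, coeff_zero] at hd
    exact absurd rfl hd
  smul_mem' := by
    intro c φ hφ m y hy d hd
    rw [LinearMap.smul_apply, coeff_smul] at hd
    apply hφ m y hy d
    intro h
    rw [h, smul_zero] at hd
    exact hd rfl

theorem mem_Om (s : ℤ)
    (φ : D →ₗ[MvPolynomial (Fin (n + 1)) V] MvPolynomial (Fin (n + 1)) V) :
    φ ∈ Om 𝒟 s ↔ ∀ m, ∀ y ∈ 𝒟 m, ∀ d : Fin (n + 1) →₀ ℕ, coeff d (φ y) ≠ 0 →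
      ((∑ i, d i : ℕ) : ℤ) = m + s := Iff.rfl

theorem act_mem [GradedAlgebra 𝒟] {s : ℤ} {m : ℕ} {f : D} (hf : f ∈ 𝒟 m)
    {φ : D →ₗ[MvPolynomial (Fin (n + 1)) V] MvPolynomial (Fin (n + 1)) V} (hφ : φ ∈ Om 𝒟 s) :
    act f φ ∈ Om 𝒟 (s + m) := by
  rw [mem_Om] at hφ ⊢
  intro m' y hy d hd
  have := hφ _ _ (SetLike.mul_mem_graded hf hy) d hd
  rw [this]
  push_cast
  ring

/-- The ideal `ann φ` is homogeneous. -/
theorem ann_homogeneous [GradedAlgebra 𝒟] {s : ℤ}
    {φ : D →ₗ[MvPolynomial (Fin (n + 1)) V] MvPolynomial (Fin (n + 1)) V} (hφ : φ ∈ Om 𝒟 s) :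
    (ann φ).IsHomogeneous 𝒟 := by
  classical
  intro i f hf
  rw [mem_ann] at hf ⊢
  -- it is enough to treat homogeneous `y`
  have hy : ∀ m, ∀ y ∈ 𝒟 m, φ ((DirectSum.decompose 𝒟 f i : D) * y) = 0 := by
    intro m y hy
    ext d
    rw [coeff_zero]
    by_contra hd
    have hdeg := (mem_Om 𝒟 s φ).1 hφ _ _
      (SetLike.mul_mem_graded (DirectSum.decompose 𝒟 f i).2 hy) d hd
    have h1 : φ (f * y) = ∑ j ∈ (DirectSum.decompose 𝒟 f).support,
        φ ((DirectSum.decompose 𝒟 f j : D) * y) := by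
      conv_lhs => rw [← DirectSum.sum_support_decompose 𝒟 f]
      rw [Finset.sum_mul, map_sum]
    have h2 := congrArg (coeff d) (hf y)
    rw [h1, coeff_sum, coeff_zero, Finset.sum_eq_single i] at h2
    · exact hd h2
    · intro j _ hji
      by_contra hne
      have := (mem_Om 𝒟 s φ).1 hφ _ _
        (SetLike.mul_mem_graded (DirectSum.decompose 𝒟 f j).2 hy) d hne
      rw [hdeg] at this
      push_cast at this
      apply hji
      omega
    · intro hi
      rw [DFinsupp.notMem_support_iff] at hi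
      rw [hi, ZeroMemClass.coe_zero, zero_mul, map_zero, coeff_zero]
  intro y
  rw [← DirectSum.sum_support_decompose 𝒟 y, Finset.mul_sum, map_sum]
  exact Finset.sum_eq_zero fun m _ => hy m _ (DirectSum.decompose 𝒟 y m).2

/-- `ϖ`-divisible functionals can be divided. -/
theorem exists_div [IsDomain V] {ϖ : V} (hϖ : ϖ ≠ 0) {s : ℤ}
    {φ : D →ₗ[MvPolynomial (Fin (n + 1)) V] MvPolynomial (Fin (n + 1)) V} (hφ : φ ∈ Om 𝒟 s)
    (h : ∀ y d, ϖ ∣ coeff d (φ y)) : ∃ ψ ∈ Om 𝒟 s, φ = ϖ • ψ := by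
  have h1 : ∀ y, ∃ z : MvPolynomial (Fin (n + 1)) V, φ y = ϖ • z := by
    intro y
    have : C ϖ ∣ φ y := (C_dvd_iff_dvd_coeff ϖ (φ y)).2 (h y)
    obtain ⟨z, hz⟩ := this
    exact ⟨z, by rw [hz, smul_eq_C_mul]⟩
  choose q hq using h1
  have hinj : ∀ u v : MvPolynomial (Fin (n + 1)) V, ϖ • u = ϖ • v → u = v := by
    intro u v huv
    rw [smul_eq_C_mul, smul_eq_C_mul] at huv
    exact mul_left_cancel₀ (by rwa [Ne, C_eq_zero]) huv
  refine ⟨{ toFun := q, map_add' := ?_, map_smul' := ?_ }, ?_, ?_⟩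
  · intro u v
    apply hinj
    rw [← hq, map_add, hq, hq, smul_add]
  · intro c u
    apply hinj
    rw [← hq, map_smul, hq, RingHom.id_apply, smul_comm]
  · rw [mem_Om] at hφ ⊢
    intro m y hy d hd
    apply hφ m y hy d
    rw [hq, coeff_smul, smul_eq_mul]
    exact mul_ne_zero hϖ hd
  · exact LinearMap.ext fun y => hq y

/-- **Dependence of functionals.** -/
theorem exists_mem_ann [IsDomain V] [IsDiscreteValuationRing V]
    [IsAdicComplete (maximalIdeal V) V] [GradedAlgebra 𝒟] {ϖ : V} (hϖ : Irreducible ϖ)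
    {s : ℤ} {m a : ℕ}
    (ha : ∀ x : Fin (a + 1) → (D →ₗ[MvPolynomial (Fin (n + 1)) V] MvPolynomial (Fin (n + 1)) V),
      (∀ i, x i ∈ Om 𝒟 (s + m)) → ∃ c : Fin (a + 1) → V, (∃ i, IsUnit (c i)) ∧
        ∀ y d, ϖ ∣ coeff d ((∑ i, c i • x i) y))
    {φ : D →ₗ[MvPolynomial (Fin (n + 1)) V] MvPolynomial (Fin (n + 1)) V} (hφ : φ ∈ Om 𝒟 s)
    (f : Fin (a + 1) → D) (hf : ∀ i, f i ∈ 𝒟 m) :
    ∃ c : Fin (a + 1) → V, c ≠ 0 ∧ ∑ i, c i • f i ∈ ann φ := by
  have hsep : ∀ x : Om 𝒟 (s + m) (n := n), (∀ k : ℕ, ∃ y, x = ϖ ^ k • y) → x = 0 := by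
    rintro ⟨x, hx⟩ h
    apply Subtype.ext
    show x = 0
    refine LinearMap.ext fun y => ?_
    ext d
    rw [LinearMap.zero_apply, coeff_zero]
    apply eq_zero_of_dvd hϖ
    intro k
    obtain ⟨z, hz⟩ := h k
    have h3 : x = ϖ ^ k • (z : D →ₗ[MvPolynomial (Fin (n + 1)) V] _) := congrArg Subtype.val hz
    rw [h3, LinearMap.smul_apply, coeff_smul, smul_eq_mul]
    exact Dvd.intro _ rfl
  have hred : ∀ x : Fin (a + 1) → Om 𝒟 (s + m) (n := n), ∃ c : Fin (a + 1) → V,
      (∃ i, IsUnit (c i)) ∧ ∃ y, ∑ i, c i • x i = ϖ • y := by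
    intro x
    obtain ⟨c, hu, hdiv⟩ := ha (fun i => (x i : D →ₗ[MvPolynomial (Fin (n + 1)) V] _))
      (fun i => (x i).2)
    obtain ⟨ψ, hψ, he⟩ := exists_div 𝒟 hϖ.ne_zero
      (Submodule.sum_mem _ fun i _ => Submodule.smul_mem _ (c i) (x i).2) hdiv
    refine ⟨c, hu, ⟨ψ, hψ⟩, ?_⟩
    apply Subtype.ext
    rw [Submodule.coe_smul, ← he]
    simp
  obtain ⟨c, hc0, hc⟩ := exists_dep (M := Om 𝒟 (s + m)) hϖ hsep a hred
    (fun i => ⟨act (f i) φ, act_mem 𝒟 (hf i) hφ⟩)
  refine ⟨c, hc0, ?_⟩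
  have h1 : (∑ i, c i • act (f i) φ : D →ₗ[MvPolynomial (Fin (n + 1)) V] _) = 0 := by
    have := congrArg Subtype.val hc
    simpa using this
  rw [mem_ann]
  intro y
  have h2 := LinearMap.congr_fun h1 y
  rw [LinearMap.sum_apply, LinearMap.zero_apply] at h2
  rw [Finset.sum_mul, map_sum, ← h2]
  refine Finset.sum_congr rfl fun i _ => ?_
  rw [LinearMap.smul_apply, act_apply, smul_mul_assoc,
    ← algebraMap_smul (MvPolynomial (Fin (n + 1)) V) (c i) (f i * y), map_smul,
    algebraMap_smul]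

end functionals

end Pool.Agent.DXA
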