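import Pool.Agent.DXA.Cpl

/-!
# Integral functionals give compact algebraic surfaces (MP_db3ab1_ag, part E, algebraicity)

`V` is a complete discrete valuation ring, `D` a noetherian graded domain over
`R = V[X_0, …, X_n]`.  If there is a nonzero homogeneous `R`-linear functional `φ : D → R`, and if
the growth of `D` exceeds the growth of the functionals, then some `ann (f φ)` is a homogeneous
prime ideal `Q ≠ 0` and `D / Q` is a finite torsion free `R`-module.
-/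

set_option autoImplicit false

open MvPolynomial IsLocalRing

namespace Pool.Agent.DXA

section graded

variable {n : ℕ} {V D : Type*} [CommRing V] [IsDomain V] [CommRing D] [Algebra V D]
  [Algebra (MvPolynomial (Fin (n + 1)) V) D] [IsScalarTower V (MvPolynomial (Fin (n + 1)) V) D]
  (𝒟 : ℕ → Submodule V D) [GradedAlgebra 𝒟]

omit [IsDomain V] [Algebra (MvPolynomial (Fin (n + 1)) V) D]
  [IsScalarTower V (MvPolynomial (Fin (n + 1)) V) D] in
/-- growth of `D / J` for a nonzero ideal `J` -/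
theorem growth_quot [IsDomain D] (ρ : ℕ → ℕ)
    (hρ1 : ∀ (m : ℕ) (ι : Type) [Fintype ι] (y : ι → D), (∀ i, y i ∈ 𝒟 m) → Ind V ⊥ y →
      Fintype.card ι ≤ ρ m)
    (hρ2 : ∀ m, ∃ y : Fin (ρ m) → D, (∀ i, y i ∈ 𝒟 m) ∧ Ind V ⊥ y)
    (hgr : ∀ e, ∃ C, ∀ m, ρ (m + e) ≤ ρ m + C * (m + e + 1) ^ n)
    (J : Ideal D) {e : ℕ} {f : D} (hf : f ∈ 𝒟 e) (hfJ : f ∈ J) (hf0 : f ≠ 0) :
    ∃ C, ∀ (m : ℕ) (ι : Type) [Fintype ι] (y : ι → D), (∀ i, y i ∈ 𝒟 m) → Ind V J y →
      Fintype.card ι ≤ C * (m + 1) ^ n := by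
  classical
  obtain ⟨C, hC⟩ := hgr e
  refine ⟨C + ∑ m ∈ Finset.range e, ρ m, fun m ι _ y hy hi => ?_⟩
  rcases Nat.lt_or_ge m e with hme | hme
  · have h1 : Fintype.card ι ≤ ρ m := by
      apply hρ1 m ι y hy
      intro c hc
      apply hi c
      rw [Ideal.mem_bot] at hc
      rw [hc]
      exact J.zero_mem
    have h2 : ρ m ≤ ∑ m ∈ Finset.range e, ρ m :=
      Finset.single_le_sum (f := ρ) (fun _ _ => Nat.zero_le _) (Finset.mem_range.2 hme)
    calc Fintype.card ι ≤ C + ∑ m ∈ Finset.range e, ρ m := by omega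
      _ ≤ (C + ∑ m ∈ Finset.range e, ρ m) * (m + 1) ^ n :=
          Nat.le_mul_of_pos_right _ (by positivity)
  · obtain ⟨k, rfl⟩ := Nat.exists_eq_add_of_le' hme
    obtain ⟨z, hz, hzi⟩ := hρ2 k
    have h1 : Fintype.card (ι ⊕ Fin (ρ k)) ≤ ρ (k + e) := by
      apply hρ1 (k + e) (ι ⊕ Fin (ρ k)) (Sum.elim y fun j => f * z j)
      · rintro (i | j)
        · exact hy i
        · have := SetLike.mul_mem_graded hf (hz j)
          rwa [add_comm e k] at this
      · intro c hc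
        rw [Fintype.sum_sum_type] at hc
        simp only [Sum.elim_inl, Sum.elim_inr] at hc
        have h2 : ∑ j, c (Sum.inr j) • (f * z j) = f * ∑ j, c (Sum.inr j) • z j := by
          rw [Finset.mul_sum]
          exact Finset.sum_congr rfl fun j _ => (mul_smul_comm _ _ _).symm
        rw [h2, Ideal.mem_bot] at hc
        have h3 : (fun i => c (Sum.inl i)) = 0 := by
          apply hi
          rw [eq_neg_of_add_eq_zero_left hc]
          exact J.neg_mem (J.mul_mem_right _ hfJ)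
        have h4 : ∑ i, c (Sum.inl i) • y i = 0 := by
          apply Finset.sum_eq_zero
          intro i _
          have := congrFun h3 i
          simp only [Pi.zero_apply] at this
          rw [this, zero_smul]
        rw [h4, zero_add] at hc
        have h5 : (fun j => c (Sum.inr j)) = 0 := by
          apply hzi
          rw [Ideal.mem_bot]
          exact (mul_eq_zero.1 hc).resolve_left hf0
        funext q
        rcases q with i | j
        · exact congrFun h3 i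
        · exact congrFun h5 j
    rw [Fintype.card_sum, Fintype.card_fin] at h1
    have h2 := hC k
    have h3 : Fintype.card ι ≤ C * (k + e + 1) ^ n := by omega
    calc Fintype.card ι ≤ C * (k + e + 1) ^ n := h3
      _ ≤ (C + ∑ m ∈ Finset.range e, ρ m) * (k + e + 1) ^ n :=
          Nat.mul_le_mul_right _ (Nat.le_add_right _ _)

omit [IsDomain V] in
/-- **A maximal annihilator is prime.** -/
theorem exists_prime [IsNoetherianRing D] {s : ℤ}
    {φ : D →ₗ[MvPolynomial (Fin (n + 1)) V] MvPolynomial (Fin (n + 1)) V} (hφ : φ ∈ Om 𝒟 s)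
    (h0 : φ ≠ 0) : ∃ (e : ℕ) (f : D), f ∈ 𝒟 e ∧ act f φ ≠ 0 ∧ (ann (act f φ)).IsPrime ∧
      (ann (act f φ)).IsHomogeneous 𝒟 := by
  let S : Set (Ideal D) := {I | ∃ (e : ℕ) (f : D), f ∈ 𝒟 e ∧ act f φ ≠ 0 ∧ I = ann (act f φ)}
  have hS : S.Nonempty := by
    refine ⟨ann (act 1 φ), 0, 1, SetLike.one_mem_graded 𝒟, ?_, rfl⟩
    have : act 1 φ = φ := by
      refine LinearMap.ext fun y => ?_
      rw [act_apply, one_mul]
    rwa [this]
  obtain ⟨I, ⟨e, f, hf, hf0, rfl⟩, hmax⟩ := exists_maximal_of_wellFoundedGT S hS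
  refine ⟨e, f, hf, hf0, ?_, ann_homogeneous 𝒟 (act_mem 𝒟 hf hφ)⟩
  apply (ann_homogeneous 𝒟 (act_mem 𝒟 hf hφ)).isPrime_of_homogeneous_mem_or_mem
  · rw [Ne, ann_eq_top]
    exact hf0
  · intro x y hx hy hxy
    by_contra hcon
    push Not at hcon
    obtain ⟨hxI, hyI⟩ := hcon
    obtain ⟨d, hx⟩ := hx
    have h1 : act (f * x) φ ≠ 0 := by
      rw [Ne, act_eq_zero, ← ann_act]
      exact hxI
    have h2 : ann (act (f * x) φ) ∈ S := ⟨e + d, f * x, SetLike.mul_mem_graded hf hx, h1, rfl⟩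
    have h3 : ann (act f φ) ≤ ann (act (f * x) φ) := by
      intro g hg
      rw [ann_act] at hg ⊢
      have : f * x * g = x * (f * g) := by ring
      rw [this]
      exact Ideal.mul_mem_left _ x hg
    have h4 := hmax h2 h3
    apply hyI
    apply h4
    rw [ann_act]
    rw [ann_act] at hxy
    rwa [mul_assoc]

/-- **Compact algebraic surfaces from functionals.** -/
theorem exists_surface [IsDiscreteValuationRing V] [IsAdicComplete (maximalIdeal V) V]
    [IsDomain D] [IsNoetherianRing D] {ϖ : V} (hϖ : Irreducible ϖ)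
    (hX : ∀ i, algebraMap (MvPolynomial (Fin (n + 1)) V) D (X i) ∈ 𝒟 1)
    (ρ : ℕ → ℕ)
    (hρ1 : ∀ (m : ℕ) (ι : Type) [Fintype ι] (y : ι → D), (∀ i, y i ∈ 𝒟 m) → Ind V ⊥ y →
      Fintype.card ι ≤ ρ m)
    (hρ2 : ∀ m, ∃ y : Fin (ρ m) → D, (∀ i, y i ∈ 𝒟 m) ∧ Ind V ⊥ y)
    (hgr : ∀ e, ∃ C, ∀ m, ρ (m + e) ≤ ρ m + C * (m + e + 1) ^ n)
    (a : ℤ → ℕ)
    (ha : ∀ (s : ℤ)
      (x : Fin (a s + 1) → (D →ₗ[MvPolynomial (Fin (n + 1)) V] MvPolynomial (Fin (n + 1)) V)),
      (∀ i, x i ∈ Om 𝒟 s) → ∃ c : Fin (a s + 1) → V, (∃ i, IsUnit (c i)) ∧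
        ∀ y d, ϖ ∣ coeff d ((∑ i, c i • x i) y))
    (hlt : ∀ s : ℤ, ∃ m : ℕ, a (s + m) < ρ m)
    {s : ℤ} {φ : D →ₗ[MvPolynomial (Fin (n + 1)) V] MvPolynomial (Fin (n + 1)) V}
    (hφ : φ ∈ Om 𝒟 s) (h0 : φ ≠ 0) :
    ∃ (e : ℕ) (f : D), f ∈ 𝒟 e ∧ act f φ ≠ 0 ∧ (ann (act f φ)).IsPrime ∧
      (ann (act f φ)).IsHomogeneous 𝒟 ∧ ann (act f φ) ≠ ⊥ ∧
      Module.Finite (MvPolynomial (Fin (n + 1)) V) (D ⧸ ann (act f φ)) ∧
      ∀ r : MvPolynomial (Fin (n + 1)) V,
        algebraMap (MvPolynomial (Fin (n + 1)) V) D r ∈ ann (act f φ) → r = 0 := by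
  classical
  obtain ⟨e, f, hf, hf0, hprime, hhom⟩ := exists_prime 𝒟 hφ h0
  refine ⟨e, f, hf, hf0, hprime, hhom, ?_⟩
  set ψ := act f φ with hψ
  have hψm : ψ ∈ Om 𝒟 (s + e) := act_mem 𝒟 hf hφ
  -- a nonzero homogeneous element of `ann ψ`
  obtain ⟨m, hm⟩ := hlt (s + e)
  obtain ⟨y, hy, hyi⟩ := hρ2 m
  obtain ⟨c, hc0, hc⟩ := exists_mem_ann 𝒟 hϖ (ha (s + e + m)) hψm
    (fun i => y (Fin.castLE hm i)) (fun i => hy _)
  have hg0 : ∑ i, c i • y (Fin.castLE hm i) ≠ 0 := by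
    intro hg
    apply hc0
    let c' : Fin (ρ m) → V := fun j => if h : (j : ℕ) < a (s + e + m) + 1 then c ⟨j, h⟩ else 0
    have h1 : ∑ j, c' j • y j = ∑ i, c i • y (Fin.castLE hm i) := by
      rw [← Finset.sum_subset (Finset.subset_univ
        (Finset.univ.map (Fin.castLEEmb hm))) ?_]
      · rw [Finset.sum_map]
        refine Finset.sum_congr rfl fun i _ => ?_
        have h2 : c' (Fin.castLEEmb hm i) = c i := by
          show (if h : ((Fin.castLEEmb hm i : Fin (ρ m)) : ℕ) < a (s + e + m) + 1 then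
            c ⟨(Fin.castLEEmb hm i : Fin (ρ m)), h⟩ else 0) = c i
          have h3 : ((Fin.castLEEmb hm i : Fin (ρ m)) : ℕ) = i := rfl
          rw [dif_pos (by rw [h3]; exact i.2)]
          rfl
        rw [h2]
        rfl
      · intro j _ hj
        have h2 : ¬ (j : ℕ) < a (s + e + m) + 1 := by
          intro h
          apply hj
          rw [Finset.mem_map]
          exact ⟨⟨j, h⟩, Finset.mem_univ _, Fin.ext rfl⟩
        show (if h : (j : ℕ) < a (s + e + m) + 1 then c ⟨j, h⟩ else 0) • y j = 0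
        rw [dif_neg h2, zero_smul]
    have h4 : c' = 0 := by
      apply hyi
      rw [h1, hg]
      exact Ideal.zero_mem _
    funext i
    have h5 := congrFun h4 (Fin.castLE hm i)
    have h6 : c' (Fin.castLE hm i) = c i := by
      show (if h : ((Fin.castLE hm i : Fin (ρ m)) : ℕ) < a (s + e + m) + 1 then
        c ⟨(Fin.castLE hm i : Fin (ρ m)), h⟩ else 0) = c i
      have h3 : ((Fin.castLE hm i : Fin (ρ m)) : ℕ) = i := rfl
      rw [dif_pos (by rw [h3]; exact i.2)]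
      rfl
    rw [h6] at h5
    exact h5
  have hgm : ∑ i, c i • y (Fin.castLE hm i) ∈ 𝒟 m :=
    Submodule.sum_mem _ fun i _ => Submodule.smul_mem _ _ (hy _)
  refine ⟨fun h => hg0 ?_, ?_, fun r hr => algebraMap_mem_ann ψ hf0 r hr⟩
  · rw [h, Ideal.mem_bot] at hc
    exact hc
  · obtain ⟨C, hC⟩ := growth_quot 𝒟 ρ hρ1 hρ2 hgr (ann ψ) hgm hc hg0
    obtain ⟨r, w, d, hw, hi, htor⟩ := exists_family 𝒟 hX (ann ψ) C hC
    exact finite_quot_ann ψ w htor

end graded

end Pool.Agent.DXA
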