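import Mathlib

/-!
# Growth and rank (MP_db3ab1_ag, part E)

`D` is a graded algebra over `V[X_0, …, X_n]` (the `X_i` acting by elements of degree `1`), `J` an
ideal of `D`.  If the number of elements of degree `m` of `D` which are independent over `V` modulo
`J` is at most `C (m + 1) ^ n`, then there are finitely many homogeneous elements `w i` such that
every `y ∈ D` has a nonzero multiple in `∑ R w i + J` (`exists_family`).
-/

set_option autoImplicit false

open MvPolynomial

namespace Pool.Agent.DXA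

section defs

variable {A D : Type*} [CommRing A] [CommRing D] [Algebra A D]

/-- The family `w` is linearly independent over `A` modulo the ideal `J`. -/
def Ind (A : Type*) [CommRing A] [Algebra A D] (J : Ideal D) {ι : Type} [Fintype ι] (w : ι → D) :
    Prop :=
  ∀ c : ι → A, ∑ i, c i • w i ∈ J → c = 0

end defs

section graded

variable {n : ℕ} {V D : Type*} [CommRing V] [IsDomain V] [CommRing D] [Algebra V D]
  [Algebra (MvPolynomial (Fin (n + 1)) V) D] [IsScalarTower V (MvPolynomial (Fin (n + 1)) V) D]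
  (𝒟 : ℕ → Submodule V D) [GradedAlgebra 𝒟]

theorem monomial_mem
    (hX : ∀ i, algebraMap (MvPolynomial (Fin (n + 1)) V) D (X i) ∈ 𝒟 1)
    (s : Fin (n + 1) →₀ ℕ) (c : V) :
    algebraMap (MvPolynomial (Fin (n + 1)) V) D (monomial s c) ∈ 𝒟 (∑ i, s i) := by
  have h1 : (monomial s c : MvPolynomial (Fin (n + 1)) V) = c • ∏ i, X i ^ s i := by
    rw [smul_eq_C_mul, monomial_eq]
    congr 1
    exact Finsupp.prod_fintype _ _ (fun i => pow_zero _)
  rw [h1]
  have h2 : algebraMap (MvPolynomial (Fin (n + 1)) V) D (c • ∏ i, X i ^ s i) =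
      c • ∏ i, algebraMap (MvPolynomial (Fin (n + 1)) V) D (X i) ^ s i := by
    rw [Algebra.smul_def, map_mul, ← IsScalarTower.algebraMap_apply V, ← Algebra.smul_def,
      map_prod]
    simp only [map_pow]
  rw [h2]
  refine (𝒟 _).smul_mem c ?_
  have h3 := SetLike.prod_pow_mem_graded 𝒟 (F := (Finset.univ : Finset (Fin (n + 1))))
    (g := fun i => algebraMap (MvPolynomial (Fin (n + 1)) V) D (X i)) (i := fun _ => 1)
    (fun i => s i) (fun k _ => hX k)
  simpa using h3

/-- the exponent with the entries `β` and total degree `e` -/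
noncomputable def ex (e : ℕ) {d : ℕ} (β : Fin n → Fin d) : Fin (n + 1) →₀ ℕ :=
  Finsupp.equivFunOnFinite.symm (Fin.cons (e - ∑ j, (β j : ℕ)) fun j => (β j : ℕ))

theorem ex_sum (e : ℕ) {d : ℕ} (β : Fin n → Fin (d + 1)) (h : n * d ≤ e) :
    ∑ i, ex e β i = e := by
  have h1 : ∑ j, (β j : ℕ) ≤ n * d := by
    calc ∑ j, (β j : ℕ) ≤ ∑ _j : Fin n, d :=
          Finset.sum_le_sum fun j _ => Nat.lt_succ_iff.1 (β j).2
      _ = n * d := by simp
  rw [Fin.sum_univ_succ]
  have h2 : ex e β 0 = e - ∑ j, (β j : ℕ) := rfl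
  have h3 : ∀ j : Fin n, ex e β j.succ = (β j : ℕ) := fun j => rfl
  rw [h2]
  simp only [h3]
  omega

theorem ex_inj (e : ℕ) {d : ℕ} : Function.Injective (ex (n := n) e (d := d)) := by
  intro β β' h
  funext j
  apply Fin.ext
  have := DFunLike.congr_fun h j.succ
  exact this

/-- **Bound for homogeneous independent families.** -/
theorem card_le (hX : ∀ i, algebraMap (MvPolynomial (Fin (n + 1)) V) D (X i) ∈ 𝒟 1)
    (J : Ideal D) (C : ℕ)
    (hC : ∀ (m : ℕ) (ι : Type) [Fintype ι] (y : ι → D), (∀ i, y i ∈ 𝒟 m) → Ind V J y →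
      Fintype.card ι ≤ C * (m + 1) ^ n)
    (r : ℕ) (w : Fin r → D) (d : Fin r → ℕ) (hw : ∀ i, w i ∈ 𝒟 (d i))
    (hi : Ind (MvPolynomial (Fin (n + 1)) V) J w) : r ≤ C * (n + 1) ^ n := by
  classical
  obtain ⟨b, hb⟩ : ∃ b, ∀ i, d i ≤ b := ⟨∑ i, d i, fun i =>
    Finset.single_le_sum (f := d) (fun _ _ => Nat.zero_le _) (Finset.mem_univ i)⟩
  set m := b + n * b with hm
  let y : Fin r × (Fin n → Fin (b + 1)) → D := fun q =>
    (monomial (ex (m - d q.1) q.2) (1 : V) : MvPolynomial (Fin (n + 1)) V) • w q.1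
  have hy : ∀ q, y q ∈ 𝒟 m := by
    intro q
    have h1 : n * b ≤ m - d q.1 := by
      have := hb q.1
      omega
    have h2 := monomial_mem 𝒟 hX (ex (m - d q.1) q.2) (1 : V)
    rw [ex_sum _ _ h1] at h2
    have h3 := SetLike.mul_mem_graded h2 (hw q.1)
    have h4 : m - d q.1 + d q.1 = m := by
      have := hb q.1
      omega
    show (monomial (ex (m - d q.1) q.2) (1 : V) : MvPolynomial (Fin (n + 1)) V) • w q.1 ∈ 𝒟 m
    rw [Algebra.smul_def]
    rwa [h4] at h3
  have hI : Ind V J y := by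
    intro c hc
    have h1 : ∑ q, c q • y q = ∑ i, (∑ β, monomial (ex (m - d i) β) (c (i, β)) :
        MvPolynomial (Fin (n + 1)) V) • w i := by
      rw [Fintype.sum_prod_type]
      refine Finset.sum_congr rfl fun i _ => ?_
      rw [Finset.sum_smul]
      refine Finset.sum_congr rfl fun β _ => ?_
      show c (i, β) • ((monomial (ex (m - d i) β) (1 : V) : MvPolynomial (Fin (n + 1)) V) • w i) = _
      rw [← smul_assoc]
      congr 1
      rw [smul_monomial, smul_eq_mul, mul_one]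
    rw [h1] at hc
    have h2 := hi _ hc
    funext q
    obtain ⟨i, β⟩ := q
    have h3 := congrFun h2 i
    have h4 := congrArg (coeff (ex (m - d i) β)) h3
    rw [coeff_sum, Finset.sum_eq_single β] at h4
    · rw [coeff_monomial, if_pos rfl] at h4
      exact h4
    · intro β' _ hne
      rw [coeff_monomial, if_neg]
      intro h
      exact hne (ex_inj _ h)
    · intro h
      exact absurd (Finset.mem_univ _) h
  have h5 := hC m _ y hy hI
  rw [Fintype.card_prod, Fintype.card_fin, Fintype.card_fun, Fintype.card_fin,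
    Fintype.card_fin] at h5
  have h6 : (m + 1) ^ n ≤ (n + 1) ^ n * (b + 1) ^ n := by
    rw [← mul_pow]
    apply Nat.pow_le_pow_left
    rw [hm]
    nlinarith
  have h7 : r * (b + 1) ^ n ≤ (C * (n + 1) ^ n) * (b + 1) ^ n := by
    calc r * (b + 1) ^ n ≤ C * (m + 1) ^ n := h5
      _ ≤ C * ((n + 1) ^ n * (b + 1) ^ n) := Nat.mul_le_mul_left _ h6
      _ = (C * (n + 1) ^ n) * (b + 1) ^ n := by ring
  exact Nat.le_of_mul_le_mul_right h7 (by positivity)

omit [IsDomain V] in
/-- **A finite family with torsion quotient.** -/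
theorem exists_family' (J : Ideal D) (B : ℕ) [IsDomain V]
    (hB : ∀ (r : ℕ) (w : Fin r → D) (d : Fin r → ℕ), (∀ i, w i ∈ 𝒟 (d i)) →
      Ind (MvPolynomial (Fin (n + 1)) V) J w → r ≤ B) :
    ∃ (r : ℕ) (w : Fin r → D) (d : Fin r → ℕ), (∀ i, w i ∈ 𝒟 (d i)) ∧
      Ind (MvPolynomial (Fin (n + 1)) V) J w ∧
      ∀ y : D, ∃ a : MvPolynomial (Fin (n + 1)) V, a ≠ 0 ∧
        ∃ c : Fin r → MvPolynomial (Fin (n + 1)) V, a • y - ∑ i, c i • w i ∈ J := by
  classical
  let P : ℕ → Prop := fun r => ∃ (w : Fin r → D) (d : Fin r → ℕ), (∀ i, w i ∈ 𝒟 (d i)) ∧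
    Ind (MvPolynomial (Fin (n + 1)) V) J w
  have h0 : P 0 := ⟨fun i => i.elim0, fun i => i.elim0, fun i => i.elim0, fun c _ => by
    funext i
    exact i.elim0⟩
  have hPB : ∀ r, P r → r ≤ B := by
    rintro r ⟨w, d, hw, hi⟩
    exact hB r w d hw hi
  obtain ⟨r, hr, hmax⟩ : ∃ r, P r ∧ ¬ P (r + 1) := by
    by_contra hcon
    push_neg at hcon
    have : ∀ r, P r := by
      intro r
      induction r with
      | zero => exact h0
      | succ r ih => exact hcon r ih
    have := hPB (B + 1) (this (B + 1))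
    omega
  obtain ⟨w, d, hw, hi⟩ := hr
  refine ⟨r, w, d, hw, hi, ?_⟩
  have hadd : ∀ y y' : D,
      (∃ a : MvPolynomial (Fin (n + 1)) V, a ≠ 0 ∧
        ∃ c : Fin r → MvPolynomial (Fin (n + 1)) V, a • y - ∑ i, c i • w i ∈ J) →
      (∃ a : MvPolynomial (Fin (n + 1)) V, a ≠ 0 ∧
        ∃ c : Fin r → MvPolynomial (Fin (n + 1)) V, a • y' - ∑ i, c i • w i ∈ J) →
      (∃ a : MvPolynomial (Fin (n + 1)) V, a ≠ 0 ∧
        ∃ c : Fin r → MvPolynomial (Fin (n + 1)) V, a • (y + y') - ∑ i, c i • w i ∈ J) := by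
    rintro y y' ⟨a, ha, c, hc⟩ ⟨a', ha', c', hc'⟩
    refine ⟨a * a', mul_ne_zero ha ha', fun i => a' * c i + a * c' i, ?_⟩
    have h1 : (a * a') • (y + y') - ∑ i, (a' * c i + a * c' i) • w i =
        a' • (a • y - ∑ i, c i • w i) + a • (a' • y' - ∑ i, c' i • w i) := by
      simp only [add_smul, Finset.sum_add_distrib, smul_sub, Finset.smul_sum, smul_smul, smul_add]
      rw [mul_comm a' a]
      abel
    rw [h1]
    refine J.add_mem ?_ ?_
    · rw [Algebra.smul_def]
      exact J.mul_mem_left _ hc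
    · rw [Algebra.smul_def]
      exact J.mul_mem_left _ hc'
  have hhom : ∀ (e : ℕ) (y : D), y ∈ 𝒟 e →
      ∃ a : MvPolynomial (Fin (n + 1)) V, a ≠ 0 ∧
        ∃ c : Fin r → MvPolynomial (Fin (n + 1)) V, a • y - ∑ i, c i • w i ∈ J := by
    intro e y hy
    by_contra hcon
    apply hmax
    refine ⟨Fin.snoc w y, Fin.snoc d e, ?_, ?_⟩
    · intro i
      refine Fin.lastCases ?_ (fun j => ?_) i
      · simpa using hy
      · simpa using hw j
    · intro c hc
      rw [Fin.sum_univ_castSucc] at hc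
      simp only [Fin.snoc_castSucc, Fin.snoc_last] at hc
      have hlast : c (Fin.last r) = 0 := by
        by_contra hne
        apply hcon
        refine ⟨c (Fin.last r), hne, fun i => -c i.castSucc, ?_⟩
        have h2 : c (Fin.last r) • y - ∑ i, (-c (Fin.castSucc i)) • w i =
            ∑ i, c (Fin.castSucc i) • w i + c (Fin.last r) • y := by
          simp only [neg_smul, Finset.sum_neg_distrib]
          abel
        rw [h2]
        exact hc
      rw [hlast, zero_smul, add_zero] at hc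
      have h3 := hi _ hc
      funext i
      refine Fin.lastCases ?_ (fun j => ?_) i
      · exact hlast
      · exact congrFun h3 j
  intro y
  rw [← DirectSum.sum_support_decompose 𝒟 y]
  induction (DirectSum.decompose 𝒟 y).support using Finset.induction_on with
  | empty =>
    refine ⟨1, one_ne_zero, 0, ?_⟩
    simp
  | insert m s hms ih =>
    rw [Finset.sum_insert hms]
    exact hadd _ _ (hhom m _ (DirectSum.decompose 𝒟 y m).2) ih

/-- **Growth gives finite rank.** -/
theorem exists_family (hX : ∀ i, algebraMap (MvPolynomial (Fin (n + 1)) V) D (X i) ∈ 𝒟 1)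
    (J : Ideal D) (C : ℕ)
    (hC : ∀ (m : ℕ) (ι : Type) [Fintype ι] (y : ι → D), (∀ i, y i ∈ 𝒟 m) → Ind V J y →
      Fintype.card ι ≤ C * (m + 1) ^ n) :
    ∃ (r : ℕ) (w : Fin r → D) (d : Fin r → ℕ), (∀ i, w i ∈ 𝒟 (d i)) ∧
      Ind (MvPolynomial (Fin (n + 1)) V) J w ∧
      ∀ y : D, ∃ a : MvPolynomial (Fin (n + 1)) V, a ≠ 0 ∧
        ∃ c : Fin r → MvPolynomial (Fin (n + 1)) V, a • y - ∑ i, c i • w i ∈ J :=
  exists_family' 𝒟 J (C * (n + 1) ^ n) fun r w d hw hi => card_le 𝒟 hX J C hC r w d hw hi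

end graded

end Pool.Agent.DXA
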